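import Pool.Agent.helper643_DM.Lower

/-!
# The diameter of the distance-1/2 graph on the Turing degrees is 3

Upper bound: for all sets `A`, `B` we construct `x`, `y` such that `A`, `x`, `y`, `B` are
consecutively at distance at most `1/2`, by forcing with pairs `(P, Q)` of effectively closed classes
(`P` relative to `A`, `Q` relative to `B`) such that `(P × Q) \ U` has positive measure, where `U` is
a small c.e. open set of pairs which contains all pairs `(x, y)` such that some set computed from one
of them by the `e`-th functional differs too much, on some late block, from the other one
(`exists_pair`).

Lower bound: there is a function `f` computable from the halting problem such that every function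
`g` with the same computable bound and `g(k) ≠ f(k)` for almost all `k` computes a function which is
not dominated by any computable function (`agree_often`). Hence the degree of the halting problem has
no common neighbour with the degree of the empty set (`two_lt_edist`).
-/

set_option autoImplicit false

namespace Pool.Agent.Results.MP_af0b0b_lc.DiameterThree

open Pool.Agent.Helper643.DM Pool.Agent.H454R3.Att Pool.Agent.Helper578.JD
  Pool.Agent.Helper578.JD.Defs

/-- Sanity check: two sets have the same class in the metric space exactly if they are coarsely
similar. -/
theorem sanity_classes (A B : Set ℕ) : cls A = cls B ↔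
    Filter.Tendsto (fun n : ℕ => ((symmDiff A B ∩ Set.Iio n).ncard : ℝ) / n) Filter.atTop
      (nhds 0) := cls_eq_iff A B

/-- Sanity check: the distance in the metric space is the upper density of the symmetric
difference. -/
theorem sanity_dist (A B : Set ℕ) : dist (cls A) (cls B) =
    Filter.limsup (fun n : ℕ => ((symmDiff A B ∩ Set.Iio n).ncard : ℝ) / n) Filter.atTop := rfl

/-- Sanity check: equality of degrees. -/
theorem sanity_deg (A B : Set ℕ) : degOf A = degOf B ↔
    TuringReducible (chi A) (chi B) ∧ TuringReducible (chi B) (chi A) := by
  constructor
  · intro h
    exact Quotient.exact (s := degSetoid) h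
  · intro h
    exact Quotient.sound (s := degSetoid) h

/-- Sanity check: adjacency, all definitions unfolded. -/
theorem sanity_adj (A B : Set ℕ) : halfGraph.Adj (degOf A) (degOf B) ↔
    degOf A ≠ degOf B ∧ Metric.hausdorffDist
      (closure {x : CoarseSpace | ∃ X : Set ℕ, TuringReducible (chi X) (chi A) ∧ x = cls X})
      (closure {x : CoarseSpace | ∃ X : Set ℕ, TuringReducible (chi X) (chi B) ∧ x = cls X}) =
        1 / 2 := Iff.rfl

/-- The graph of all Turing degrees of subsets of `ℕ`, in which two distinct degrees are adjacent
exactly if the Hausdorff distance of the closures of their lower cones in the metric space of the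
coarse similarity classes is `1/2`, is connected, and its diameter is `3`. -/
theorem result : halfGraph.Connected ∧ halfGraph.ediam = 3 := by
  have hne : Nonempty Deg := ⟨degOf ∅⟩
  refine ⟨SimpleGraph.connected_of_ediam_ne_top (by rw [ediam_eq]; decide), ediam_eq⟩

end Pool.Agent.Results.MP_af0b0b_lc.DiameterThree
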